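import Pool.Agent.U442.Htj.EP

/-!
# The Tate conjecture at EVERY prime number for the products of 100% of the hyperelliptic Jacobians with
# ALL powers of an arbitrary variety at once, over number fields

Let `K` be a number field and let `n i ≥ 7`, `i` in a finite nonempty set, be odd numbers. We consider
the tuples `f` of monic polynomials `f i` over the ring of integers of `K`, of degrees `n i`; `J i` is
the Jacobian of the curve `y ^ 2 = f i (x)`, of dimension `(n i - 1) / 2`. The group `J i (F)`, for an
algebraically closed field `F`, is the class group of the ring `F[x, y]` of the affine curve (the curve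
has one point at infinity), and `V_2 (J i)` is its rational 2-adic Tate module.

Let `L` be a finite extension of `K` and `Z` an arbitrary variety or pure motive over `L`: only a stable
lattice of the 2-adic realization is used, in the form of the matrices `t s` over the 2-adic integers,
`s` in the absolute Galois group of `L`.

`AllMotives`: for ALL pure motives `M` in the tensor category generated by `Z` (`Generated`: obtained
from the 2-adic realization of `Z` and characters with values in `ℤ_2ˣ`, such as the Tate twists, by
tensor products, direct sums, duals, subrepresentations and quotients; for instance all direct summands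
of the cohomology of all powers `Z ^ b`) and for EVERY prime number `ℓ` (`EveryPrime`): the `f i` are
separable, and all Tate classes on all powers `A ^ a` of the product `A` of the Jacobians with values in
the `ℓ`-adic realization of `M(c)` are zero in odd degrees, and in even degrees they are linear
combinations of products of Tate classes of degree two on `A ^ a` and Tate classes of `M`
(`ProductsWith`). The Tate classes of degree two on abelian varieties are algebraic (Faltings). So the
Tate conjecture at `ℓ` for all `J 1 ^ m 1 × ... × J r ^ m r × Z ^ b` (all `m 1, ..., m r, b`) is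
EQUIVALENT to the Tate conjecture at `ℓ` for all the powers `Z ^ b`, for every `ℓ`. (The definitions
and the theorem contain only Tate classes; `M` and `A` enter through the characteristic polynomials
`Q v` and `P v` of the Frobenius elements outside of any finite set `S` of places, their purity, and one
continuous 2-adic realization.)

**Theorem.** (1) (100% for each `Z`.) `AllMotives` is true for 100% of the tuples `f`: the proportion
tends to one in all sequences of finite sets of tuples which are equidistributed modulo all nonzero
ideals, for instance boxes.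

(2) (Congruences.) For each `η > 0` there is a nonzero ideal `I` such that for a proportion of at least
`1 - η` of the residue classes modulo `I` of tuples, `AllMotives` is true for ALL tuples in the class.

(3) (One exceptional set for all `L` and `Z`.) For equidistributed sets of tuples as in (1) there are
finite sets `V 0`, `V 1`, ... of elements of `Kˣ` such that each element of `Kˣ` is in `V t` for all large
`t`, and the proportion of the tuples in `B t` which are good for `V t` tends to one; here `f` is good
for `U` if `AllMotives` is true for ALL finite extensions `L` of `K` such that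

(`Allowed`) the elements of `L` have solvable Galois groups over `K`, or they lie in a normal extension
of `K` over which none of the `f i` splits into linear factors, or in which only the elements of `U`, up
to squares, become squares,

and for ALL `Z` over `L` with matrices `t` such that

(`Tame`) the Galois group of the extension `L'` of `L` defined by the action modulo 2 is solvable, or each
square root of an element `c` of `Kˣ` which is in `L'` is the square root of an element of `U`, up to
factors in `K`.

What is new. The starting result `MP_640417_ag.HyperellipticEveryPrime` treats one motive `Z` at a time: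
its exceptional set of tuples depends on the motive, so for the powers `Z ^ b` it gives a countable
family of exceptional sets (a union of infinitely many sets of density zero need not have density
zero). Here one set of tuples works for the whole tensor category, since each object has a lattice on
which all elements trivial modulo 2 for `t` are trivial modulo 2 (`Pool.Agent.U442.Htj.Lat`, `Sub`,
`Gen`). The density theorem and the passage to all primes come from the folders `N197.Htj` and
`N197.AP` of the starting library.
-/

set_option autoImplicit false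

namespace Pool.Agent.Results.MP_021685_ag.EveryPrimeAllPowers

open Polynomial Filter Topology NumberField
open Pool.Agent.U442.Htj (Generated)
open Pool.Agent.U442.Htj.EP (AbsoluteGaloisGroup matRep EveryPrime)
open scoped Classical

/-- the matrices over `ℚ_2` -/
noncomputable def toQ {G : Type} [Group G] {d : ℕ} (t : G →* Matrix (Fin d) (Fin d) ℤ_[2]) :
    G →* Matrix (Fin d) (Fin d) ℚ_[2] :=
  ((algebraMap ℤ_[2] ℚ_[2]).mapMatrix : Matrix (Fin d) (Fin d) ℤ_[2] →+* _).toMonoidHom.comp t

/-- The matrix of `s` is congruent to one modulo two. -/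
def TrivialModTwo {G : Type} [Group G] {d : ℕ} (t : G →* Matrix (Fin d) (Fin d) ℤ_[2]) (s : G) :
    Prop :=
  (t s).map (PadicInt.toZMod (p := 2)) = 1

/-- **All motives in the tensor category generated by `Z`, at every prime number.** -/
def AllMotives {L : Type} [Field L] [NumberField L] {ι : Type} (f : ι → L[X]) {d : ℕ}
    (t : AbsoluteGaloisGroup L →* Matrix (Fin d) (Fin d) ℤ_[2]) : Prop :=
  ∀ (m : ℕ) (ν : AbsoluteGaloisGroup L →* Matrix (Fin m) (Fin m) ℚ_[2]), Continuous ν →
    Generated (matRep (toQ t)) (Fin m → ℚ_[2]) (matRep ν) → EveryPrime f ν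

/-- The tuple of the monic polynomials with the coefficients `y`: the polynomial `i` is
`X ^ n i + ∑ j < n i, y (i, j) X ^ j`. -/
noncomputable def poly {K : Type} [Field K] {ι : Type} {n : ι → ℕ}
    (y : (Σ i, Fin (n i)) → 𝓞 K) (i : ι) : K[X] :=
  X ^ n i + ∑ j : Fin (n i), C (algebraMap (𝓞 K) K (y ⟨i, j⟩)) * X ^ (j : ℕ)

/-- The elements of `L` have solvable Galois groups over `K`, or lie in a normal extension over which
none of the polynomials `f i` splits, or in which the only elements of `K` which become squares are
those of `U`, up to squares. -/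
def Allowed {K : Type} [Field K] (L : Type) [Field L] [Algebra K L] (U : Finset Kˣ) {ι : Type}
    (f : ι → K[X]) : Prop :=
  (∀ x : L, Group.IsSolvable (minpoly K x).Gal) ∨
  ∃ M : IntermediateField K (AlgebraicClosure L), Normal K M ∧
    (∀ x : L, algebraMap L (AlgebraicClosure L) x ∈ M) ∧
    ((∀ i, ¬ ((f i).map (algebraMap K M)).Splits) ∨
      ∀ c : Kˣ, (∃ δ ∈ M, δ ^ 2 = algebraMap K (AlgebraicClosure L) c) → ∃ u ∈ U, IsSquare (c * u))

/-- The image of the Galois group modulo two is solvable, or the elements of `K` which become squares in the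
extension defined by the action modulo 2 are in `U`, up to squares. -/
def Tame {K L : Type} [Field K] [Field L] [Algebra K L] (U : Finset Kˣ) {d : ℕ}
    (t : AbsoluteGaloisGroup L →* Matrix (Fin d) (Fin d) ℤ_[2]) : Prop :=
  (∃ m : ℕ, ∀ s ∈ derivedSeries (AbsoluteGaloisGroup L) m, TrivialModTwo t s) ∨
    ∀ c : Kˣ, (∀ δ : AlgebraicClosure L, δ ^ 2 = algebraMap K (AlgebraicClosure L) c →
      ∀ s, TrivialModTwo t s → s δ = δ) → ∃ u ∈ U, IsSquare (c * u)

/-- The good tuples of polynomials. -/
def Good {K : Type} [Field K] [NumberField K] {ι : Type} (U : Finset Kˣ) (f : ι → K[X]) : Prop :=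
  ∀ (L : Type) [Field L] [NumberField L] [Algebra K L], Allowed L U f →
    ∀ (d : ℕ) (t : AbsoluteGaloisGroup L →* Matrix (Fin d) (Fin d) ℤ_[2]),
      Tame U t → AllMotives (fun i => (f i).map (algebraMap K L)) t

/-- The tuple `y` is in the residue class `z`. -/
def InClass {R σ : Type} [CommRing R] {I : Ideal R} (y : σ → R) (z : σ → R ⧸ I) : Prop :=
  ∀ j, Ideal.Quotient.mk I (y j) = z j

/-- A sequence of nonempty finite sets of tuples which is equidistributed modulo each ideal with finite
quotient. -/
def Equidistributed {R σ : Type} [CommRing R] [Fintype σ] (B : ℕ → Finset (σ → R)) : Prop :=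
  (∀ t, (B t).Nonempty) ∧ ∀ I : Ideal R, Finite (R ⧸ I) → ∀ z : σ → R ⧸ I,
    Tendsto (fun t => (((B t).filter (fun y => InClass y z)).card : ℝ) / ((B t).card : ℝ)) atTop
      (𝓝 (1 / (Nat.card (R ⧸ I) : ℝ) ^ Fintype.card σ))

/-- The proportion of the tuples `y` in `B t` with the property `P t y` tends to one. -/
def AlmostAll {R σ : Type} (B : ℕ → Finset (σ → R)) (P : ℕ → (σ → R) → Prop) : Prop :=
  Tendsto (fun t => (((B t).filter (P t)).card : ℝ) / ((B t).card : ℝ)) atTop (𝓝 1)

theorem almostAll_mono {R σ : Type} {B : ℕ → Finset (σ → R)} (hB : ∀ t, (B t).Nonempty)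
    {P Q : ℕ → (σ → R) → Prop} (h : ∀ t y, P t y → Q t y) (hP : AlmostAll B P) : AlmostAll B Q := by
  refine tendsto_of_tendsto_of_tendsto_of_le_of_le hP tendsto_const_nhds (fun t => ?_) (fun t => ?_)
  · have h0 : (0 : ℝ) < ((B t).card : ℝ) := by exact_mod_cast (hB t).card_pos
    apply div_le_div_of_nonneg_right _ h0.le
    refine Nat.cast_le.2 (Finset.card_le_card fun y hy => ?_)
    rw [Finset.mem_filter] at hy ⊢
    exact ⟨hy.1, h t y hy.2⟩
  · have h0 : (0 : ℝ) < ((B t).card : ℝ) := by exact_mod_cast (hB t).card_pos
    show _ / _ ≤ (1 : ℝ)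
    rw [div_le_one h0]
    exact_mod_cast Finset.card_filter_le _ _

open Pool.Agent.N197.AP in
theorem allMotives_of_gd {K : Type} [Field K] [NumberField K] {ι : Type} [Fintype ι] [Nonempty ι]
    {n : ι → ℕ} {U : Finset Kˣ} {f : ι → K[X]} (hf : LIM.Gd n U f) {L : Type} [Field L]
    [NumberField L] [Algebra K L]
    (hA : Pool.Agent.N197.Htj.Allowed L (AlgebraicClosure L) U f) {d : ℕ}
    {t : AbsoluteGaloisGroup L →* Matrix (Fin d) (Fin d) ℤ_[2]}
    (ht : Pool.Agent.U442.Htj.TameT (k := K) U t) :
    AllMotives (fun i => (f i).map (algebraMap K L)) t := by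
  intro m ν hν hgen
  have hgov := Pool.Agent.U442.Htj.governed_of_generated
    (Pool.Agent.U442.Htj.EP.hasMatrices_toQ t) hgen
  obtain ⟨h1, h2⟩ := hf L (AlgebraicClosure L) hA _ _
    (Pool.Agent.U442.Htj.tame_of_governed n ht hgov)
  exact Pool.Agent.U442.Htj.EP.everyPrime_of_gd _ h1 ν hν h2

/-- **The Tate conjecture at every prime number for the products of 100% of the hyperelliptic Jacobians
with all powers of an arbitrary variety at once, over number fields.** -/
theorem result {K : Type} [Field K] [NumberField K] {ι : Type} [Fintype ι] [Nonempty ι]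
    (n : ι → ℕ) (h7 : ∀ i, 7 ≤ n i) (ho : ∀ i, Odd (n i)) :
    (∀ (L : Type) [Field L] [NumberField L] [Algebra K L] (d : ℕ)
      (t : AbsoluteGaloisGroup L →* Matrix (Fin d) (Fin d) ℤ_[2]),
      (∀ B : ℕ → Finset ((Σ i, Fin (n i)) → 𝓞 K), Equidistributed B →
        AlmostAll B fun _ y => AllMotives (fun i => (poly y i).map (algebraMap K L)) t) ∧
      ∀ η : ℝ, 0 < η → ∃ I : Ideal (𝓞 K), Finite (𝓞 K ⧸ I) ∧
        (1 - η) * (Nat.card ((Σ i, Fin (n i)) → 𝓞 K ⧸ I) : ℝ) ≤
          (Nat.card {z : (Σ i, Fin (n i)) → 𝓞 K ⧸ I //
            ∀ y : (Σ i, Fin (n i)) → 𝓞 K, InClass y z →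
              AllMotives (fun i => (poly y i).map (algebraMap K L)) t} : ℝ)) ∧
    ∀ B : ℕ → Finset ((Σ i, Fin (n i)) → 𝓞 K), Equidistributed B →
      ∃ V : ℕ → Finset Kˣ, (∀ u : Kˣ, ∀ᶠ t in atTop, u ∈ V t) ∧
        AlmostAll B fun t y => Good (V t) (poly y) := by
  have hfield : ¬ IsField (𝓞 K) := NumberField.RingOfIntegers.not_isField K
  refine ⟨fun L _ _ _ d t => ?_, fun B hB => ?_⟩
  · have : FiniteDimensional K L := Module.Finite.of_restrictScalars_finite ℚ K L
    obtain ⟨U, hU1, hU2⟩ := Pool.Agent.U442.Htj.exists_UT (k := K) (L := L)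
      (F := AlgebraicClosure L) two_ne_zero (ι := ι) t
    have hgood : ∀ y : (Σ i, Fin (n i)) → 𝓞 K,
        Pool.Agent.N197.AP.LIM.Gd n U (Pool.Agent.N197.Htj.poly K y) →
        AllMotives (fun i => (poly y i).map (algebraMap K L)) t := fun y hy =>
      allMotives_of_gd hy (hU1 _) hU2
    have hdens : ∀ η : ℝ, 0 < η → ∃ M : Ideal (𝓞 K), Finite (𝓞 K ⧸ M) ∧
        (1 - η) * (Nat.card (𝓞 K ⧸ M) : ℝ) ^ (Fintype.card (Σ i, Fin (n i))) ≤
        (({x : (Σ i, Fin (n i)) → 𝓞 K ⧸ M | ∀ y : (Σ i, Fin (n i)) → 𝓞 K,
          (∀ j, Ideal.Quotient.mk M (y j) = x j) →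
            Pool.Agent.N197.AP.LIM.Gd n U (Pool.Agent.N197.Htj.poly K y)}).ncard : ℝ) :=
      fun η hη => Pool.Agent.N197.AP.LIM.dens_gd (𝓞 K) K n hfield two_ne_zero h7 ho U η hη
    refine ⟨fun B hB => ?_, fun η hη => ?_⟩
    · have h1 := Pool.Agent.X243.Gen.tendsto_of_dens
        {y | Pool.Agent.N197.AP.LIM.Gd n U (Pool.Agent.N197.Htj.poly K y)} hdens B hB.1
        (fun M hM x => by
          have h3 := hB.2 M hM x
          unfold InClass at h3
          convert h3)
      have h3 : AlmostAll B (fun _ y =>
          Pool.Agent.N197.AP.LIM.Gd n U (Pool.Agent.N197.Htj.poly K y)) := by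
        unfold AlmostAll
        convert h1
        exact Iff.rfl
      exact almostAll_mono hB.1 (fun _ y hy => hgood y hy) h3
    · obtain ⟨I, hI, h⟩ := hdens η hη
      refine ⟨I, hI, ?_⟩
      have := hI
      have := Fintype.ofFinite (𝓞 K ⧸ I)
      have h1 : Nat.card ((Σ i, Fin (n i)) → 𝓞 K ⧸ I) =
          Nat.card (𝓞 K ⧸ I) ^ Fintype.card (Σ i, Fin (n i)) := by
        rw [Nat.card_eq_fintype_card, Nat.card_eq_fintype_card, Fintype.card_fun]
      rw [h1, Nat.cast_pow]
      refine h.trans ?_
      rw [← Nat.card_coe_set_eq]
      refine Nat.cast_le.2 ?_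
      exact Nat.card_mono (Set.toFinite {z : (Σ i, Fin (n i)) → 𝓞 K ⧸ I |
          ∀ y : (Σ i, Fin (n i)) → 𝓞 K, InClass y z →
            AllMotives (fun i => (poly y i).map (algebraMap K L)) t})
        fun z hz y hy => hgood y (hz y hy)
  · obtain ⟨V, hV, h⟩ := Pool.Agent.N197.AP.lim_gd (𝓞 K) K n hfield two_ne_zero h7 ho B hB.1
      (fun M hM x => by
        have h3 := hB.2 M hM x
        unfold InClass at h3
        convert h3)
    refine ⟨V, hV, ?_⟩
    have h3 : AlmostAll B (fun t y =>
        Pool.Agent.N197.AP.LIM.Gd n (V t) (Pool.Agent.N197.Htj.poly K y)) := by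
      unfold AlmostAll
      convert h
    refine almostAll_mono hB.1 (fun t y hy => ?_) h3
    intro L _ _ _ hA d τ hτ
    refine allMotives_of_gd hy ?_ hτ
    rcases hA with hA | ⟨M, hM1, hM2, hM3⟩
    · exact Or.inl fun x _ => hA x
    · exact Or.inr ⟨M, hM1, fun x _ => hM2 x, hM3⟩

end Pool.Agent.Results.MP_021685_ag.EveryPrimeAllPowers
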