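import Pool.Agent.U270.FT14.Final8
import Pool.Agent.U270.FT14.Pub2
import Pool.Agent.N214.HB.Gauss

/-!
# The Tate conjecture for all Fermat fourfolds, for the Fermat varieties of dimension at most six of all
degrees not divisible by 420, of dimension at most twelve of all odd degrees, and of any dimension and
half of the degrees

Let `k` be a finite field with `q` elements and of characteristic `p`, let `θ` be a multiplicative
character of `k` of order `m` and `ψ` a nontrivial additive character. Let `V` be a Fermat variety
`x_0 ^ m + ... + x_(n+1) ^ m = 0` of even dimension `n = 2 c - 2` over `k`, or a diagonal hypersurface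
of degree `m`. By Weil `H^n(V)` is the sum of lines `V(s)` and of the power of the class of a hyperplane
section, where `s` runs through the tuples of `n + 2` nonzero residues modulo `m` with sum zero, and
the Frobenius acts on `V(s)` by the product of the Gauss sums of the `θ ^ a`, `a ∈ s`, divided by `q`,
up to a root of unity. So the Tate classes over the finite extensions of `k` are spanned by the lines
such that a power of this product is the same power of `q ^ c`.

The theorem: for EVERY positive number `m` there is a positive `L` such that for every finite field `k`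
whose characteristic is congruent to 1 modulo `m` and every such `s` with at most six entries, with at
most eight entries if `m` is not divisible by 420, and with at most fourteen entries if `m` is odd, the
character `L s` is generated in degree `L m` (this corresponds to the pull back under the map
`x_i ↦ x_i ^ L`) by characters whose lines are algebraic in characteristic zero:
* the pairs `{a, -a}`, and unions (Shioda, Katsura); removing a pair; the standard characters (Aoki,
  Shioda);
* the Hodge characters with four entries (Lefschetz), and the unions of two characters of Fermat curves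
  or of characters with five entries and empty Fine interior (`CurveProduct`; see
  `MP_e12fcd_ag.FermatFourfolds`);
* the modular characters; see `MP_802513_ag.FermatFactorsOdd` for the reason why their lines are algebraic.
So the Tate conjecture holds for the Fermat varieties and all diagonal hypersurfaces of degree `m` and
dimension at most four (every `m`), at most six (every `m` not divisible by 420) or at most twelve
(every odd `m`)
* over all number fields `K`: the classes fixed by the Galois group of a finite extension of `K` are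
  spanned by lines `V(s)` on which a power of the Frobenius at every place of degree one above a prime
  number `p ≡ 1` modulo `m` is trivial after the Tate twist, and the theorem applies already if this
  holds at a single such place (over `k = 𝔽_p`);
* over all finite fields of characteristic `p ≡ 1` modulo `m`: the cycles of characteristic zero
  specialise, as the Fermat variety of degree `m` has good reduction.
PUBLISHED GENERATORS ONLY: `2 s` is generated in degree `2 m` without the modular characters in the
following cases; `N` is the number of entries of `s`, the dimension is `N - 2`.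
* `N ≤ 8` and `m` is ANY odd number, or an even number which is not divisible by any of 55, 65, 68, 69,
  77, 91, 143, 420 (90 percent of the even numbers);
* `N ≤ 14`, `m` is odd and not divisible by any of 55, 65, 69 and 3003 = 3·7·11·13 (95 percent of the odd
  numbers);
* ANY `N`, and the prime factors `r ≤ 12 N` of `m` lie in one of the sets `{2, 3, 5}`, `{2, 3, 7}`,
  `{2, 5, 7}`, `{2, 3, 11}`, `{2, 3, 13}`, or `4` does not divide `m` and they lie in `{2, r'}` for some
  `r'`. In every dimension at most 80 these are more than half of all degrees (65 percent for dimension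
  eight), and in every dimension they are a positive proportion.
In these cases only published theorems on the algebraicity of lines are used.
(The geometric facts just described are not formalised.)

The combinatorial theorems on Hodge characters are `Pool.Agent.U270.FT14.main_all8`,
`Pool.Agent.U270.FT14.main_pub` and `Pool.Agent.U270.FT14.main_small_primes` (see
`MP_e12fcd_ag.FermatOddDegreeDimTwelve` for the proofs); that products of Gauss sums have the weights
given by Stickelberger's theorem is `Pool.Agent.N214.HB.isTate_of_gauss` of the starting library.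
-/

set_option autoImplicit false

namespace Pool.Agent.Results.MP_021685_ag.FermatOddDegree

open Pool.Agent.H916R2 Pool.Agent.N992 Pool.Agent.Y2.Cv

theorem result (m : ℕ) (hm : m ≠ 0) :
    (∀ (k : Type) [Field k] [Fintype k] (p : ℕ) [Fact p.Prime] [CharP k p], m ∣ p - 1 →
      ∀ (θ : MulChar k ℂ), orderOf θ = m → ∀ (ψ : AddChar k ℂ), ψ ≠ 1 →
      ∀ (s : Multiset (ZMod m)), (0 : ZMod m) ∉ s → s ≠ 0 → s.sum = 0 →
      ∀ c : ℕ, Multiset.card s = 2 * c →
      ((Multiset.card s ≤ 8 ∧
          (Odd m ∨ (¬ 55 ∣ m ∧ ¬ 65 ∣ m ∧ ¬ 68 ∣ m ∧ ¬ 69 ∣ m ∧ ¬ 77 ∣ m ∧ ¬ 91 ∣ m ∧ ¬ 143 ∣ m ∧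
            ¬ 420 ∣ m))) ∨
        (Multiset.card s ≤ 14 ∧ Odd m ∧ ¬ 55 ∣ m ∧ ¬ 65 ∣ m ∧ ¬ 69 ∣ m ∧ ¬ 3003 ∣ m) ∨
        (∃ S : Finset ℕ, (S = {2, 3, 5} ∨ S = {2, 3, 7} ∨ S = {2, 5, 7} ∨ S = {2, 3, 11} ∨
            S = {2, 3, 13} ∨ (¬ 4 ∣ m ∧ ∃ r', S = {2, r'})) ∧
          ∀ r : ℕ, r.Prime → r ∣ m → r ≤ 12 * Multiset.card s → r ∈ S)) →
      ∀ e : ℕ, 0 < e →
      ((s.map fun a => gaussSum (θ ^ a.val) ψ).prod) ^ e = ((Fintype.card k : ℂ) ^ c) ^ e →
        Generated (2 * m) (SurfaceOrCurveProduct (2 * m))
          (s.map fun a => ((2 * a.val : ℕ) : ZMod (2 * m)))) ∧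
    (∃ L : ℕ, ∃ _ : NeZero (L * m), ∀ (k : Type) [Field k] [Fintype k] (p : ℕ) [Fact p.Prime]
      [CharP k p], m ∣ p - 1 →
      ∀ (θ : MulChar k ℂ), orderOf θ = m → ∀ (ψ : AddChar k ℂ), ψ ≠ 1 →
      ∀ (s : Multiset (ZMod m)), (0 : ZMod m) ∉ s → s ≠ 0 → s.sum = 0 →
      ∀ c : ℕ, Multiset.card s = 2 * c →
      (Multiset.card s ≤ 6 ∨ (¬ 420 ∣ m ∧ Multiset.card s ≤ 8) ∨
        (Odd m ∧ Multiset.card s ≤ 14)) →
      ∀ e : ℕ, 0 < e →
      ((s.map fun a => gaussSum (θ ^ a.val) ψ).prod) ^ e = ((Fintype.card k : ℂ) ^ c) ^ e →
        Generated (L * m) (FourBase (L * m))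
          (s.map fun a => ((L * a.val : ℕ) : ZMod (L * m)))) := by
  have hNm : NeZero m := ⟨hm⟩
  have key : ∀ (k : Type) [Field k] [Fintype k] (p : ℕ) [Fact p.Prime] [CharP k p], m ∣ p - 1 →
      ∀ (θ : MulChar k ℂ), orderOf θ = m → ∀ (ψ : AddChar k ℂ), ψ ≠ 1 →
      ∀ (s : Multiset (ZMod m)), (0 : ZMod m) ∉ s → s.sum = 0 →
      ∀ c : ℕ, Multiset.card s = 2 * c → ∀ e : ℕ, 0 < e →
      ((s.map fun a => gaussSum (θ ^ a.val) ψ).prod) ^ e = ((Fintype.card k : ℂ) ^ c) ^ e →
      IsHodge m s := by
    intro k _ _ p hp _ hmp θ hθ ψ hψ s h0 hsum c hc e he h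
    have hmk : m ∣ Fintype.card k - 1 := by
      obtain ⟨F, hpr, hcard⟩ := FiniteField.card k p
      rw [hcard]
      exact hmp.trans (Nat.sub_one_dvd_pow_sub_one p F)
    have hT : Pool.Agent.H916T.IsTate p m s :=
      Pool.Agent.N214.HB.isTate_of_gauss (p := p) hmk θ hθ ψ hψ s h0 hsum c hc e he h
    have hp1 : ((p : ℕ) : ZMod m) = 1 := by
      have h3 : ((p - 1 : ℕ) : ZMod m) = 0 := (ZMod.natCast_eq_zero_iff _ _).mpr hmp
      have h4 : p = (p - 1) + 1 := (Nat.succ_pred_prime hp.out).symm
      rw [h4, Nat.cast_add, h3, zero_add, Nat.cast_one]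
    refine ⟨h0, hT.2.1, hsum, ?_⟩
    intro t
    have h5 := hT.2.2.2 t
    rw [hp1, orderOf_one, Finset.sum_range_one, one_mul] at h5
    simpa using h5
  obtain ⟨L, hL, h2⟩ := Pool.Agent.U270.FT14.main_all8 hm
  refine ⟨?_, ⟨L, hL, ?_⟩⟩
  · intro k _ _ p hp _ hmp θ hθ ψ hψ s h0 hne hsum c hc h' e he h
    have hs := key k p hmp θ hθ ψ hψ s h0 hsum c hc e he h
    rcases h' with h' | ⟨h1, ho, h3⟩ | ⟨S, hS, h'⟩
    · exact Pool.Agent.U270.FT14.main_pub hm s hs hne (Or.inl h')
    · exact Pool.Agent.U270.FT14.main_pub hm s hs hne (Or.inr (Or.inr ⟨ho, h3, h1⟩))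
    · exact Pool.Agent.U270.FT14.main_small_primes hm s hs hne S hS h'
  · intro k _ _ p hp _ hmp θ hθ ψ hψ s h0 hne hsum c hc h' e he h
    exact h2 s (key k p hmp θ hθ ψ hψ s h0 hsum c hc e he h) hne h'

end Pool.Agent.Results.MP_021685_ag.FermatOddDegree
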