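import Pool.Agent.N179.GR.Fin

/-!
# MP_021685_ag: the Tate conjecture for the products of an arbitrary variety with members of an
# independent family; only the squares have to be compared

Let `F₀` be a finitely generated field with the separable closure `k`, for example a number field, let
`Γ` be its Galois group, `W` the `ℓ`-adic cohomology of the varieties over `k` with coefficients in an
algebraic closure `K` of `ℚ_ℓ` (a field isomorphic to `ℂ`), and `χ` the inverse of the cyclotomic
character, so that `g c = χ(g)^j c` for `c ∈ H^(2j)` says that `c` is invariant in `H^(2j)(j)`. The
theorem is proved for an abstract Weil cohomology theory with an action of a group.

A class (or a vector of a representation) is *semi-invariant* if a subgroup of finite index multiplies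
it by scalars. Let `V_i`, `i ∈ ι`, be any family of representations of `Γ` such that the representations
`End V_i` are semisimple, and which are pairwise independent (`Family`): for `i ≠ j` every equivariant
linear map `End V_i → End V_j` has its values in the span of the semi-invariant vectors. So only the
squares have to be compared. For instance the representations `H^1(E_i)` for any family of elliptic
curves without complex multiplication which are pairwise not isogenous over `k`; the `H^1` of pairwise not
isogenous abelian varieties `A_i` with `End A_i = ℤ` and of odd dimension; the transcendental lattices
`T(X_i)` of K3 surfaces without real or complex multiplication, pairwise not isomorphic up to a twist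
and of rank different from `4`; and one can mix these families.

Let `P_a` be varieties with semisimple cohomology which is generated by `V_(i_a)` (`OfType`), for
instance arbitrary powers of the elliptic curve, of the abelian variety or of the K3 surface.

**Theorem.** For every representation `U` of `Γ` there is a finite set `E(U)` of exceptional indices, with

* at most `dim U - dim U'` elements, where `U'` is the span of the semi-invariant vectors, and at most
  one half of this number if `U` carries a form which is invariant up to a character; so for the
  cohomology of a variety `Z` at most `(b - b') / 2` elements, `b` the sum of the Betti numbers;
* for all `i ∈ E(U)` the representation `End V_i` has a perfect Lie algebra `s_i` of dimension at least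
  three in common with `End U`, and the sum of the dimensions of the `s_i` is at most `(dim U) ^ 2` (or
  the dimension of the orthogonal or the symplectic Lie algebra if `U` carries a form); `E(V_j) ⊆ {j}`.

Let `Z` be an **arbitrary** variety whose cohomology is generated by representations `U_1, …, U_m` and
semi-invariant classes (for instance by its own cohomology), and let `E` be the union of the `E(U_a)`. Then
for all products `Y = P_1 × ⋯ × P_n × Z` with pairwise different indices `i_a ∉ E`:

* the semi-invariant classes on `P × Y` are the combinations of products of semi-invariant classes on
  `P` and on `Y`, for every `P` of type `V_i` with a further index `i ∉ E`;
* if the semi-invariant classes on the `P_a` are combinations of potential Tate classes (`Twisted`), then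
  **the Tate conjecture for `Y` (all codimensions, all finite extensions of the field) is equivalent to
  the Tate conjecture for `Z` and for all `P_a`.**

So for all powers of elliptic curves (for which the Tate conjecture is known) and arbitrary `Z` the Tate
conjecture for `E_1^(n_1) × ⋯ × E_r^(n_r) × Z` is equivalent to the one for `Z`, if none of the `E_i` is
one of at most `(b - b') / 2` exceptions, which depend only on the cohomology of `Z`. Nothing is assumed
on `Z`; its cohomology need not be semisimple. The exceptional members may be moved to the base.

The proof uses Lie algebras of families of representations without algebraic groups: Goursat's lemma and
the lemma of Ribet for an abstract group; see `Pool.Agent.N179.GR`.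
-/

set_option autoImplicit false

universe u

namespace Pool.Agent.Results.MP_021685_ag.IndependenceFromSquares

open Pool.Agent.H914 Pool.Agent.TH125.Gal Pool.Agent.N179.GR.S

/-- **Independent families of varieties, an arbitrary variety, and the Tate conjecture.** -/
theorem result {k : Type u} [Field k] {𝒱 : VarClass k} {ops : CycleOps 𝒱}
    {W : WeilCohomology.{u, 0} ops} (hK : Nonempty (W.K ≃+* ℂ)) {Γ : Type} [Group Γ]
    (χ : Γ →* W.Kˣ) {ι : Type} {V : ι → GRep W.K Γ} (hV : Family V) :
    ∃ E : GRep W.K Γ → Set ι, Splitting χ V E :=
  final hK χ hV

end Pool.Agent.Results.MP_021685_ag.IndependenceFromSquares
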