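import Pool.Agent.N179.TL.Fin

/-!
# MP_021685_ag: the Tate conjecture for products of K3 surfaces of different heights over finite fields,
# and for their products with arbitrary varieties with independent slopes

Let `X i`, `i < r`, be K3 surfaces over an algebraic closure of the field with `p` elements, of finite
heights `h i` and with Picard numbers `22 - b i`. `IsK3Variety`: over a finite field with `q` elements
the cohomology of `X i` is spanned by algebraic classes and by eigenvectors of Frobenius in the middle
degree whose eigenvalues are `q` times conjugates of `α i` (up to roots of unity), where all powers of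
`α i` generate a CM field `E i`, all complex absolute values of `α i` are one, the `p`-adic embeddings
of `E i` with `|α i| > 1` belong to one place, and there `|α i| = q ^ (1 / h i)`; the Tate conjecture
holds for `X i × X i` in the middle codimension. (All this is known for K3 surfaces: Charles, Madapusi
Pera, Kim and Madapusi Pera; Ito, Ito and Koshikawa.) Other varieties with cohomology of this type, for
instance cubic fourfolds, are allowed. Let `Z` be a product of `n i` copies of `X i`, `i < r`, and of any
number of varieties with only algebraic cohomology.

Let `Γ` be a set of rational numbers which contains `0`, and suppose that (`Admissible`)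

* integers `a i`, `|a i| ≤ n i`, with `∑ a i / h i ∈ Γ` are zero, and `n i ≤ 2`, or `n i = 3` and
  `(d i, m i)` is not in the list `exceptionalPairs`, or `m i` is odd and `(d i, m i)` is not in the list
  `exceptionalOddPairs` (`[E i : ℚ] = 2 d i`, `m i` the local degree, `d i ≤ 10`); or
* (`Γ = {0}`) this only for the indices `i` with `a i = 0` in all solutions (the isolated ones), and for
  the other indices only that `n i ≤ 1`, that the `h i` are different (and at most `11`, the `b i` at most
  `23`, which holds for all K3 surfaces), and that there are not three such indices with
  `(h, b) = (2, 4), (3, 6), (6, 12)`.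

**Theorem.** The Tate conjecture and the semisimplicity of Frobenius hold for `Z` in all codimensions.
For **every** smooth projective variety `U` for which the slopes of Frobenius in even weights `w` are in
`w / 2 + Γ`, the Tate conjecture for `Z × U` in codimension `c` is equivalent to the Tate conjecture for
`U` in the codimensions `c - i` for all `i ≤ c` with a homologically nontrivial cycle of codimension `i` on
`Z`; and similarly with semisimplicity.

In particular:

* **the Tate conjecture holds, in all codimensions, for every product of K3 surfaces over finite fields
  with finite, pairwise different heights**, except possibly if three of the factors have the heights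
  `2, 3, 6` and the Picard numbers `18, 16, 10`; supersingular K3 surfaces and all other varieties whose
  cohomology is algebraic are allowed as further factors;
* it holds for `∏ X i ^ 2` if the heights are pairwise coprime and greater than two;
* `Γ` the integers: for every K3 surface `X` of height `h > 1` and every variety `U` with integral slopes
  in even weights, for instance every ordinary variety, the Tate conjecture for `X × U` is equivalent to
  the one for `U`.

The idea: if a product of conjugates of the `α i` and of a Frobenius eigenvalue of `U` is a power of
`q` up to roots of unity, then for each `p`-adic embedding the slopes give a solution `∑ a i / h i ∈ Γ`;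
this and the structure of the CM fields show that all such relations are generated by pairs of complex
conjugate numbers. So all Tate classes on `Z × U` are sums of products of Tate classes on the factors.
The proof is in `Pool.Agent.N179.TL`.
-/

set_option autoImplicit false

open CategoryTheory AlgebraicGeometry NumberField

universe u v

namespace Pool.Agent.Results.MP_021685_ag.K3SurfacesOfDifferentHeights

open Pool.Agent.H914 Pool.Agent.W534 Pool.Agent.TH132.A Pool.Agent.TH121.KT Pool.Agent.W517.K3
  Pool.Agent.N179.TL
  VarClass Obj WeilCohomology

/-- **The Tate conjecture for products of K3 surfaces of different heights over finite fields, and for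
their products with arbitrary varieties with slopes in `Γ`.** -/
theorem result {k : Type u} [Field k] {𝒱 : VarClass k} {ops : CycleOps 𝒱}
    (W : WeilCohomology.{u, v} ops) [IsAlgClosed W.K] (p : ℕ) [Fact p.Prime]
    (Φ : FrobSystem W p) {r : ℕ} (X : Fin r → 𝒱.Obj) (e : Fin r → ℕ)
    (E : Fin r → Type) [∀ i, Field (E i)] [∀ i, NumberField (E i)] [∀ i, IsCMField (E i)]
    (α : ∀ i, E i) (h b n : Fin r → ℕ)
    (hX : ∀ i, IsK3Variety Φ (X i) (e i) (α i) (h i) (b i))
    (Γ : Set ℚ) (hΓ : (0 : ℚ) ∈ Γ)
    (hA : Admissible Γ h b (fun i => Module.finrank ℚ (E i) / 2)
      (fun i => localDegree p (α i)) n)
    (Z : 𝒱.Obj) (hZ : IsProductOfCopies W X n Z) :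
    (∀ c, SemisimpleTateIn Φ Z c) ∧
    ∀ U : 𝒱.Obj, SlopesIn Φ Γ U → ∀ c,
      (TateIn Φ (Z.prod U) c ↔
        ∀ i ≤ c, (∃ x, Z.IsCyc i x ∧ ¬ HomEq W x 0) → TateIn Φ U (c - i)) ∧
      (SemisimpleTateIn Φ (Z.prod U) c ↔
        ∀ i ≤ c, (∃ x, Z.IsCyc i x ∧ ¬ HomEq W x 0) → SemisimpleTateIn Φ U (c - i)) :=
  Pool.Agent.N179.TL.final hX hΓ hA hZ

end Pool.Agent.Results.MP_021685_ag.K3SurfacesOfDifferentHeights
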